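import Pool.Agent.Helper47.Wan.Main
import Pool.Agent.Helper69.WanEuler

open scoped WithZero
open Pool.Agent.Helper47.Wan

namespace Pool.Agent.Results.MP_9c56f6_nt.WanRamification

/-- The residue field of `v` has `|k| ^ d` elements, with `d > 0` the degree of `v`. -/
theorem card_residueField (p : ℕ) [Fact p.Prime] (k : Type*) [Field k] [Finite k] [CharP k p]
    (F : Type*) [Field F] [Algebra k F] (hF : IsFunctionField k F) (v : Place F) :
    Nat.card v.Res = Nat.card k ^ placeDegree k v ∧ 0 < placeDegree k v := by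
  have hF0 : CharP F p := charP_of_injective_algebraMap (algebraMap k F).injective p
  letI : Algebra (ZMod p) k := ZMod.algebra k p
  letI : Algebra (ZMod p) F := ZMod.algebra F p
  haveI : IsScalarTower (ZMod p) k F := IsScalarTower.of_algebraMap_eq'
    (RingHom.ext_zmod _ _)
  exact card_res_eq_kdeg p k (IsFunctionField.of_k p hF) v

/-- **Wan's conjecture on ramification in `ℤ_p`-towers of curves.** -/
theorem result (p : ℕ) [Fact p.Prime] (k : Type*) [Field k] [Finite k] [CharP k p]
    (K : Type*) [Field K] [Algebra k K] (hK : IsFunctionField k K)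
    (Ω : Type*) [Field Ω] [Algebra K Ω] [Algebra k Ω] [IsScalarTower k K Ω] [IsGalois K Ω]
    (hconst : ∀ x : Ω, IsAlgebraic k x → x ∈ Set.range (algebraMap k Ω))
    (e : Gal(Ω/K) ≃ₜ* Multiplicative ℤ_[p])
    (hS : {v : Place K | ∃ n, ¬ IsUnramifiedIn (towerLayer e n) v}.Finite) :
    ∃ P : ℕ → Polynomial ℤ,
      (∀ n, IsZetaNumerator k (towerLayer e n) (P n)) ∧
      (∃ N, ∀ n ≥ N, p ^ (n - 2) ≤ padicRamIdx p (padicSplittingField p (P n))) ∧
      Filter.Tendsto (fun n => padicRamIdx p (padicSplittingField p (P n)))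
        Filter.atTop Filter.atTop := by
  have hKp : CharP K p := charP_of_injective_algebraMap (algebraMap k K).injective p
  have hΩp : CharP Ω p := charP_of_injective_algebraMap (algebraMap k Ω).injective p
  letI : Algebra (ZMod p) k := ZMod.algebra k p
  letI : Algebra (ZMod p) K := ZMod.algebra K p
  letI : Algebra (ZMod p) Ω := ZMod.algebra Ω p
  haveI : IsScalarTower (ZMod p) k K := IsScalarTower.of_algebraMap_eq' (RingHom.ext_zmod _ _)
  haveI : IsScalarTower (ZMod p) K Ω := IsScalarTower.of_algebraMap_eq' (RingHom.ext_zmod _ _)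
  have hK' : IsFunctionField (ZMod p) K := IsFunctionField.of_k p hK
  have hk' : ∀ x : Ω, IsAlgebraic k x → ∃ c : k, algebraMap k Ω c = x := hconst
  have hL : ∀ n, IsFunctionField (ZMod p) (Pool.Agent.Helper13.Wan.layer e n) :=
    fun n => hK'.of_finite p
  -- existence of the numerators
  have hnum : ∀ n, ∃ P : Polynomial ℤ, (P : PowerSeries ℤ) = (1 - PowerSeries.X) *
      (1 - ((Nat.card k : ℕ) : PowerSeries ℤ) * PowerSeries.X) *
        Pool.Agent.Helper18.Wan.zetaSeries
          (fun w : Place (Pool.Agent.Helper13.Wan.layer e n) => kdeg k w) := by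
    intro n
    apply exists_numerator p k (hL n)
    intro x hx
    haveI : IsScalarTower k (Pool.Agent.Helper13.Wan.layer e n) Ω :=
      IsScalarTower.of_algebraMap_eq (fun c => rfl)
    have h1 : IsAlgebraic k (algebraMap (Pool.Agent.Helper13.Wan.layer e n) Ω x) := hx.algebraMap
    obtain ⟨c, hc⟩ := hk' _ h1
    refine ⟨c, (algebraMap (Pool.Agent.Helper13.Wan.layer e n) Ω).injective ?_⟩
    rw [← hc]
    rfl
  choose P hP using hnum
  -- the ramification locus
  have hS' : {v : Place K | ∃ n, ¬ UnramAt e n v}.Finite := by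
    apply Set.Finite.subset hS
    rintro v ⟨n, hn⟩
    refine ⟨n, fun hun => hn ?_⟩
    intro w hw
    obtain ⟨π, hπ0, hπ⟩ := v.exists_uniformizer
    have h1 := hun w hw π
    have h2 := hw.ord_eq π
    have h3 : w.ord (algebraMap K (Pool.Agent.Helper13.Wan.layer e n) π) = v.ord π := by
      rw [Place.ord, Place.ord]
      congr 2
    rw [h3, hπ, mul_one] at h2
    exact_mod_cast h2.symm
  obtain ⟨N, hN⟩ := tower_aux p e hK' hk' hS' P hP
  have hN' : ∀ n ≥ N, p ^ (n - 2) ≤ padicRamIdx p (padicSplittingField p (P n)) := hN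
  refine ⟨P, fun n => ?_, ⟨N, hN'⟩, ?_⟩
  · have hcard : ∀ w : Place (Pool.Agent.Helper13.Wan.layer e n), 0 < kdeg k w :=
      fun w => (card_res_eq_kdeg p k (hL n) w).2
    refine ⟨_, Pool.Agent.Helper69.WanEuler.hasProd_zeta
      (fun w : Place (Pool.Agent.Helper13.Wan.layer e n) => kdeg k w) hcard ?_, hP n⟩
    intro d
    obtain ⟨r, hr, hkr⟩ := exists_card_eq p k K
    apply Set.Finite.subset (finite_places_le p (hL n) (r * d))
    intro w hw
    rw [Set.mem_ofPred_eq] at hw ⊢
    rw [deg_eq_kdeg p k (hL n) hkr w]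
    exact Nat.mul_le_mul_left r hw
  · rw [Filter.tendsto_atTop_atTop]
    intro b
    refine ⟨N + b + 2, fun n hn => ?_⟩
    have hp : p.Prime := Fact.out
    calc b ≤ p ^ b := (Nat.lt_pow_self hp.one_lt).le
      _ ≤ p ^ (n - 2) := Nat.pow_le_pow_right hp.pos (by omega)
      _ ≤ _ := hN' n (by omega)

end Pool.Agent.Results.MP_9c56f6_nt.WanRamification
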